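import Pool.Agent.Helper68.BA.Defs

/-!
MP_3dd6d4_an, MODES, module E1: basic facts on the functions `eta` and `kk`.
-/

set_option autoImplicit false

noncomputable section

namespace Pool.Agent.Helper23.BAM

open MeasureTheory Set Filter Topology
open Pool.Agent.Helper68.BA

/-! ### exponentially decaying continuous functions -/

/-- `f` is continuous and `|f u| ≤ C e^{-a u}` for `u ≥ 0`. -/
def Dc (a : ℝ) (f : ℝ → ℝ) : Prop :=
  Continuous f ∧ ∃ C : ℝ, ∀ u : ℝ, 0 ≤ u → |f u| ≤ C * Real.exp (-a * u)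

lemma Dc.nonneg_const {a : ℝ} {f : ℝ → ℝ} {C : ℝ}
    (h : ∀ u : ℝ, 0 ≤ u → |f u| ≤ C * Real.exp (-a * u)) : 0 ≤ C := by
  have h0 := h 0 le_rfl
  simp only [mul_zero, Real.exp_zero, mul_one] at h0
  exact (abs_nonneg _).trans h0

lemma Dc.add {a : ℝ} {f g : ℝ → ℝ} (hf : Dc a f) (hg : Dc a g) : Dc a fun u => f u + g u := by
  obtain ⟨hfc, C, hC⟩ := hf
  obtain ⟨hgc, D, hD⟩ := hg
  refine ⟨hfc.add hgc, C + D, fun u hu => ?_⟩
  calc |f u + g u| ≤ |f u| + |g u| := abs_add_le _ _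
    _ ≤ C * Real.exp (-a * u) + D * Real.exp (-a * u) := add_le_add (hC u hu) (hD u hu)
    _ = (C + D) * Real.exp (-a * u) := by ring

lemma Dc.const_mul {a : ℝ} {f : ℝ → ℝ} (hf : Dc a f) (r : ℝ) : Dc a fun u => r * f u := by
  obtain ⟨hfc, C, hC⟩ := hf
  refine ⟨hfc.const_mul r, |r| * C, fun u hu => ?_⟩
  rw [abs_mul, mul_assoc]
  exact mul_le_mul_of_nonneg_left (hC u hu) (abs_nonneg _)

lemma Dc.mul_const {a : ℝ} {f : ℝ → ℝ} (hf : Dc a f) (r : ℝ) : Dc a fun u => f u * r := by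
  have h := hf.const_mul r
  simpa only [mul_comm r] using h

lemma Dc.div_const {a : ℝ} {f : ℝ → ℝ} (hf : Dc a f) (r : ℝ) : Dc a fun u => f u / r := by
  have h := hf.mul_const r⁻¹
  simpa only [div_eq_mul_inv] using h

lemma Dc.neg {a : ℝ} {f : ℝ → ℝ} (hf : Dc a f) : Dc a fun u => - f u := by
  have h := hf.const_mul (-1)
  simpa only [neg_mul, one_mul] using h

lemma Dc.sub {a : ℝ} {f g : ℝ → ℝ} (hf : Dc a f) (hg : Dc a g) : Dc a fun u => f u - g u := by
  have h := hf.add hg.neg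
  simpa only [← sub_eq_add_neg] using h

lemma Dc.mul {a b : ℝ} {f g : ℝ → ℝ} (hf : Dc a f) (hg : Dc b g) :
    Dc (a + b) fun u => f u * g u := by
  obtain ⟨hfc, C, hC⟩ := hf
  obtain ⟨hgc, D, hD⟩ := hg
  refine ⟨hfc.mul hgc, C * D, fun u hu => ?_⟩
  rw [abs_mul]
  calc |f u| * |g u| ≤ (C * Real.exp (-a * u)) * (D * Real.exp (-b * u)) :=
        mul_le_mul (hC u hu) (hD u hu) (abs_nonneg _) ((abs_nonneg _).trans (hC u hu))
    _ = C * D * Real.exp (-(a + b) * u) := by
        rw [show -(a + b) * u = -a * u + -b * u by ring, Real.exp_add]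
        ring

lemma Dc.exp {a b : ℝ} (h : a ≤ b) : Dc a fun u => Real.exp (-b * u) := by
  refine ⟨by fun_prop, 1, fun u hu => ?_⟩
  rw [one_mul, abs_of_pos (Real.exp_pos _)]
  apply Real.exp_le_exp.mpr
  nlinarith

lemma integrable_pow_exp {a : ℝ} (ha : 0 < a) (k : ℕ) :
    IntegrableOn (fun u : ℝ => u ^ k * Real.exp (-a * u)) (Ioi 0) := by
  have h := integrableOn_rpow_mul_exp_neg_mul_rpow (s := (k : ℝ)) (p := 1) (b := a)
    (by
      have : (0 : ℝ) ≤ k := Nat.cast_nonneg k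
      linarith) one_pos ha
  refine h.congr_fun (fun u _ => ?_) measurableSet_Ioi
  simp only [Real.rpow_natCast, Real.rpow_one]

lemma Dc.integrable {a : ℝ} (ha : 0 < a) {f : ℝ → ℝ} (hf : Dc a f) (k : ℕ) :
    IntegrableOn (fun u : ℝ => u ^ k * f u) (Ioi 0) := by
  obtain ⟨hfc, C, hC⟩ := hf
  have h1 := (integrable_pow_exp ha k).const_mul C
  refine Integrable.mono' h1 (by fun_prop) ?_
  refine (ae_restrict_iff' measurableSet_Ioi).mpr (ae_of_all _ fun u hu => ?_)
  rw [mem_Ioi] at hu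
  rw [Real.norm_eq_abs, abs_mul, abs_of_pos (pow_pos hu k)]
  have h2 := mul_le_mul_of_nonneg_left (hC u hu.le) (pow_pos hu k).le
  linarith

lemma Dc.tendsto {a : ℝ} (ha : 0 < a) {f : ℝ → ℝ} (hf : Dc a f) (k : ℕ) :
    Tendsto (fun u : ℝ => u ^ k * f u) atTop (𝓝 0) := by
  obtain ⟨hfc, C, hC⟩ := hf
  have h1 : Tendsto (fun u : ℝ => u ^ k * Real.exp (-a * u)) atTop (𝓝 0) := by
    have h := tendsto_rpow_mul_exp_neg_mul_atTop_nhds_zero (k : ℝ) a ha
    refine h.congr fun u => ?_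
    rw [Real.rpow_natCast]
  have h2 := h1.const_mul C
  rw [mul_zero] at h2
  refine squeeze_zero_norm' ?_ h2
  filter_upwards [eventually_gt_atTop 0] with u hu
  rw [Real.norm_eq_abs, abs_mul, abs_of_pos (pow_pos hu k)]
  have h3 := mul_le_mul_of_nonneg_left (hC u hu.le) (pow_pos hu k).le
  linarith

lemma Dc.integrable0 {a : ℝ} (ha : 0 < a) {f : ℝ → ℝ} (hf : Dc a f) :
    IntegrableOn f (Ioi 0) := by
  have h := hf.integrable ha 0
  simpa only [pow_zero, one_mul] using h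

/-- integration of a total derivative -/
lemma ibp0 {a : ℝ} (ha : 0 < a) {P P' : ℝ → ℝ} (hP : Dc a P) (hP' : Dc a P')
    (hd : ∀ u, HasDerivAt P (P' u) u) : ∫ u in Ioi (0 : ℝ), P' u = - P 0 := by
  have h1 := integral_Ioi_of_hasDerivAt_of_tendsto (f := P) (f' := P') (a := 0) (m := 0)
    (hP.1.continuousWithinAt) (fun u _ => hd u) (hP'.integrable0 ha) (by
      have h := hP.tendsto ha 0
      simpa only [pow_zero, one_mul] using h)
  rw [h1, zero_sub]

/-- integration by parts with the weight `u` -/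
lemma ibp1 {a : ℝ} (ha : 0 < a) {P P' : ℝ → ℝ} (hP : Dc a P) (hP' : Dc a P')
    (hd : ∀ u, HasDerivAt P (P' u) u) :
    ∫ u in Ioi (0 : ℝ), u * P' u = - ∫ u in Ioi (0 : ℝ), P u := by
  have i1 : IntegrableOn (fun u : ℝ => u * P' u) (Ioi 0) := by
    have h := hP'.integrable ha 1
    simpa only [pow_one] using h
  have h1 := integral_Ioi_of_hasDerivAt_of_tendsto (f := fun u => u * P u)
    (f' := fun u => P u + u * P' u) (a := 0) (m := 0)
    (by
      have h := hP.1
      exact Continuous.continuousWithinAt (by fun_prop)) (fun u _ => by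
      have h : HasDerivAt (fun u => u * P u) (1 * P u + u * P' u) u := (hasDerivAt_id' u).mul (hd u)
      rwa [one_mul] at h)
    ((hP.integrable0 ha).add i1) (by
      have h := hP.tendsto ha 1
      simpa only [pow_one] using h)
  rw [integral_add (hP.integrable0 ha) i1] at h1
  linarith

/-- integration by parts with the weight `u ^ 2` -/
lemma ibp2 {a : ℝ} (ha : 0 < a) {P P' : ℝ → ℝ} (hP : Dc a P) (hP' : Dc a P')
    (hd : ∀ u, HasDerivAt P (P' u) u) :
    ∫ u in Ioi (0 : ℝ), u ^ 2 * P' u = - (2 * ∫ u in Ioi (0 : ℝ), u * P u) := by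
  have i1 : IntegrableOn (fun u : ℝ => u ^ 2 * P' u) (Ioi 0) := hP'.integrable ha 2
  have i2 : IntegrableOn (fun u : ℝ => 2 * (u * P u)) (Ioi 0) := by
    have h := (hP.integrable ha 1).const_mul 2
    simp only [pow_one] at h
    exact h
  have h1 := integral_Ioi_of_hasDerivAt_of_tendsto (f := fun u => u ^ 2 * P u)
    (f' := fun u => 2 * (u * P u) + u ^ 2 * P' u) (a := 0) (m := 0)
    (by
      have h := hP.1
      exact Continuous.continuousWithinAt (by fun_prop)) (fun u _ => by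
      have h : HasDerivAt (fun u => u ^ 2 * P u) (((2 : ℕ) : ℝ) * u ^ (2 - 1) * P u + u ^ 2 * P' u) u :=
        (hasDerivAt_pow 2 u).mul (hd u)
      refine h.congr_deriv ?_
      norm_num
      ring)
    (i2.add i1) (hP.tendsto ha 2)
  rw [integral_add i2 i1, integral_const_mul] at h1
  linarith

/-! ### the functions `eta`, `kk` -/

lemma c_ne (b : ℝ) (m : ℕ) : ∀ i : ℕ, i < m → b + m + 1 ≠ b + i + 1 := by
  intro i hi h
  have h1 : (m : ℝ) = i := by linarith
  have h2 : m = i := by exact_mod_cast h1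
  omega

theorem eta_zero (b : ℝ) (m : ℕ) (β : ℝ) (hβ : ∀ i : ℕ, i < m → β ≠ b + i + 1) :
    eta b m β 0 = 1 := by
  induction m generalizing β with
  | zero => simp [eta]
  | succ m ih =>
    have h1 := ih β fun i hi => hβ i (by omega)
    have h2 := ih (b + m + 1) (c_ne b m)
    have h3 : β - (b + m + 1) ≠ 0 := sub_ne_zero.mpr (hβ m (by omega))
    simp only [eta]
    rw [h1, h2]
    field_simp
    ring

theorem eta_hasDerivAt (b : ℝ) (m : ℕ) (β u : ℝ) (hβ : ∀ i : ℕ, i < m → β ≠ b + i + 1) :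
    HasDerivAt (eta b m β) (-β * eta b m β u - kk b m u) u := by
  induction m generalizing β with
  | zero =>
    have h : HasDerivAt (fun u : ℝ => Real.exp (-β * u)) (Real.exp (-β * u) * (-β * 1)) u :=
      ((hasDerivAt_id u).const_mul (-β)).exp
    have h2 : eta b 0 β = fun u => Real.exp (-β * u) := by
      funext u; simp only [eta]
    rw [h2]
    convert h using 1
    simp only [kk]
    ring
  | succ m ih =>
    have h1 := ih β fun i hi => hβ i (by omega)
    have h2 := ih (b + m + 1) (c_ne b m)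
    have h3 : β - (b + m + 1) ≠ 0 := sub_ne_zero.mpr (hβ m (by omega))
    have h4 := ((h1.const_mul (β + (b + m + 1))).sub (h2.const_mul (2 * (b + m + 1)))).div_const
      (β - (b + m + 1))
    have h5 : eta b (m + 1) β = fun u => ((β + (b + m + 1)) * eta b m β u -
        2 * (b + m + 1) * eta b m (b + m + 1) u) / (β - (b + m + 1)) := by
      funext u; simp only [eta]
    rw [h5]
    refine h4.congr_deriv ?_
    simp only [kk]
    field_simp
    ring

theorem eta_continuous (b : ℝ) (m : ℕ) (β : ℝ) : Continuous (eta b m β) := by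
  induction m generalizing β with
  | zero =>
    have h2 : eta b 0 β = fun u => Real.exp (-β * u) := by
      funext u; simp only [eta]
    rw [h2]
    fun_prop
  | succ m ih =>
    have h5 : eta b (m + 1) β = fun u => ((β + (b + m + 1)) * eta b m β u -
        2 * (b + m + 1) * eta b m (b + m + 1) u) / (β - (b + m + 1)) := by
      funext u; simp only [eta]
    rw [h5]
    exact (((ih β).const_mul _).sub ((ih _).const_mul _)).div_const _

theorem kk_continuous (b : ℝ) (m : ℕ) : Continuous (kk b m) := by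
  induction m with
  | zero =>
    have h : kk b 0 = fun _ => 0 := by
      funext u; simp only [kk]
    rw [h]
    exact continuous_const
  | succ m ih =>
    have h : kk b (m + 1) = fun u => kk b m u + 2 * (b + m + 1) * eta b m (b + m + 1) u := by
      funext u; simp only [kk]
    rw [h]
    exact ih.add ((eta_continuous b m _).const_mul _)

lemma eta_dc (b : ℝ) (hb : 0 < b) (m : ℕ) (β : ℝ) (hβb : b ≤ β) : Dc b (eta b m β) := by
  induction m generalizing β with
  | zero =>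
    have h2 : eta b 0 β = fun u => Real.exp (-β * u) := by
      funext u; simp only [eta]
    rw [h2]
    exact Dc.exp hβb
  | succ m ih =>
    have h5 : eta b (m + 1) β = fun u => ((β + (b + m + 1)) * eta b m β u -
        2 * (b + m + 1) * eta b m (b + m + 1) u) / (β - (b + m + 1)) := by
      funext u; simp only [eta]
    rw [h5]
    have hc : b ≤ b + m + 1 := by
      have : (0 : ℝ) ≤ m := Nat.cast_nonneg m
      linarith
    exact (((ih β hβb).const_mul _).sub ((ih _ hc).const_mul _)).div_const _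

lemma kk_dc (b : ℝ) (hb : 0 < b) (m : ℕ) : Dc b (kk b m) := by
  induction m with
  | zero =>
    have h : kk b 0 = fun _ => 0 := by
      funext u; simp only [kk]
    rw [h]
    exact ⟨continuous_const, 0, fun u _ => by simp⟩
  | succ m ih =>
    have h : kk b (m + 1) = fun u => kk b m u + 2 * (b + m + 1) * eta b m (b + m + 1) u := by
      funext u; simp only [kk]
    rw [h]
    have hc : b ≤ b + m + 1 := by
      have : (0 : ℝ) ≤ m := Nat.cast_nonneg m
      linarith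
    exact ih.add ((eta_dc b hb m _ hc).const_mul _)

theorem eta_decay (b : ℝ) (hb : 0 < b) (m : ℕ) (β : ℝ) (hβb : b ≤ β) :
    ∃ C : ℝ, ∀ u : ℝ, 0 ≤ u → |eta b m β u| ≤ C * Real.exp (-b * u) :=
  (eta_dc b hb m β hβb).2

theorem kk_decay (b : ℝ) (hb : 0 < b) (m : ℕ) :
    ∃ C : ℝ, ∀ u : ℝ, 0 ≤ u → |kk b m u| ≤ C * Real.exp (-b * u) :=
  (kk_dc b hb m).2

/-! ### the differences `g = (eta^β - eta^c)/(c-β)`, `c = b+m+1` -/

/-- `g = (eta^β - eta^c)/(c-β)`, `c = b+m+1` -/
def gg (b : ℝ) (m : ℕ) (β u : ℝ) : ℝ :=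
  (eta b m β u - eta b m (b + m + 1) u) / ((b + m + 1) - β)

lemma gg_dc (b : ℝ) (hb : 0 < b) (m : ℕ) (β : ℝ) (hβb : b ≤ β) : Dc b (gg b m β) := by
  have hc : b ≤ b + m + 1 := by
    have : (0 : ℝ) ≤ m := Nat.cast_nonneg m
    linarith
  exact ((eta_dc b hb m β hβb).sub (eta_dc b hb m _ hc)).div_const _

lemma gg_zero (b : ℝ) (m : ℕ) (β : ℝ) (hβ : ∀ i : ℕ, i < m → β ≠ b + i + 1) :
    gg b m β 0 = 0 := by
  unfold gg
  rw [eta_zero b m β hβ, eta_zero b m _ (c_ne b m), sub_self, zero_div]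

lemma gg_hasDerivAt (b : ℝ) (m : ℕ) (β u : ℝ) (hβ : ∀ i : ℕ, i < m + 1 → β ≠ b + i + 1) :
    HasDerivAt (gg b m β) (eta b m β u - (b + m + 1) * gg b m β u) u := by
  have h1 := eta_hasDerivAt b m β u fun i hi => hβ i (by omega)
  have h2 := eta_hasDerivAt b m (b + m + 1) u (c_ne b m)
  have h3 : (b + m + 1) - β ≠ 0 := sub_ne_zero.mpr (Ne.symm (hβ m (by omega)))
  have h4 := (h1.sub h2).div_const ((b + m + 1) - β)
  have h5 : gg b m β = fun u => (eta b m β u - eta b m (b + m + 1) u) / ((b + m + 1) - β) := by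
    funext u; rfl
  rw [h5]
  refine h4.congr_deriv ?_
  field_simp
  ring

lemma eta_succ (b : ℝ) (m : ℕ) (β u : ℝ) (hβ : ∀ i : ℕ, i < m + 1 → β ≠ b + i + 1) :
    eta b (m + 1) β u = eta b m β u - 2 * (b + m + 1) * gg b m β u := by
  have h3 : (b + m + 1) - β ≠ 0 := sub_ne_zero.mpr (Ne.symm (hβ m (by omega)))
  have h4 : β - (b + m + 1) ≠ 0 := sub_ne_zero.mpr (hβ m (by omega))
  unfold gg
  simp only [eta]
  have h5 : β - (b + m + 1) = -((b + m + 1) - β) := by ring
  rw [h5]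
  field_simp
  ring

/-- the product `g h` and its derivative -/
def gh' (b : ℝ) (m : ℕ) (β γ u : ℝ) : ℝ :=
  (eta b m β u - (b + m + 1) * gg b m β u) * gg b m γ u +
    gg b m β u * (eta b m γ u - (b + m + 1) * gg b m γ u)

lemma gh_dc (b : ℝ) (hb : 0 < b) (m : ℕ) (β γ : ℝ) (hβb : b ≤ β) (hγb : b ≤ γ) :
    Dc (b + b) fun u => gg b m β u * gg b m γ u :=
  (gg_dc b hb m β hβb).mul (gg_dc b hb m γ hγb)

lemma gh'_dc (b : ℝ) (hb : 0 < b) (m : ℕ) (β γ : ℝ) (hβb : b ≤ β) (hγb : b ≤ γ) :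
    Dc (b + b) (gh' b m β γ) :=
  ((((eta_dc b hb m β hβb).sub ((gg_dc b hb m β hβb).const_mul _)).mul
    (gg_dc b hb m γ hγb))).add
    ((gg_dc b hb m β hβb).mul ((eta_dc b hb m γ hγb).sub ((gg_dc b hb m γ hγb).const_mul _)))

lemma gh_hasDerivAt (b : ℝ) (m : ℕ) (β γ u : ℝ) (hβ : ∀ i : ℕ, i < m + 1 → β ≠ b + i + 1)
    (hγ : ∀ i : ℕ, i < m + 1 → γ ≠ b + i + 1) :
    HasDerivAt (fun u => gg b m β u * gg b m γ u) (gh' b m β γ u) u :=
  (gg_hasDerivAt b m β u hβ).mul (gg_hasDerivAt b m γ u hγ)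

lemma eta_mul_succ (b : ℝ) (m : ℕ) (β γ u : ℝ) (hβ : ∀ i : ℕ, i < m + 1 → β ≠ b + i + 1)
    (hγ : ∀ i : ℕ, i < m + 1 → γ ≠ b + i + 1) :
    eta b (m + 1) β u * eta b (m + 1) γ u =
      eta b m β u * eta b m γ u + (-(2 * (b + m + 1))) * gh' b m β γ u := by
  rw [eta_succ b m β u hβ, eta_succ b m γ u hγ]
  unfold gh'
  ring

theorem eta_I0 (b : ℝ) (hb : 0 < b) (m : ℕ) (β γ : ℝ) (hβb : b ≤ β) (hγb : b ≤ γ)
    (hβ : ∀ i : ℕ, i < m → β ≠ b + i + 1) (hγ : ∀ i : ℕ, i < m → γ ≠ b + i + 1) :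
    ∫ u in Ioi (0 : ℝ), eta b m β u * eta b m γ u = 1 / (β + γ) := by
  induction m with
  | zero =>
    have hd : ∀ u : ℝ, HasDerivAt (fun u : ℝ => -(1 / (β + γ)) * Real.exp (-(β + γ) * u))
        (Real.exp (-(β + γ) * u)) u := by
      intro u
      have h : HasDerivAt (fun u : ℝ => Real.exp (-(β + γ) * u))
          (Real.exp (-(β + γ) * u) * (-(β + γ) * 1)) u :=
        ((hasDerivAt_id u).const_mul (-(β + γ))).exp
      refine (h.const_mul (-(1 / (β + γ)))).congr_deriv ?_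
      have : β + γ ≠ 0 := by linarith
      field_simp
    have h1 := ibp0 (a := β + γ) (by linarith) (P := fun u => -(1 / (β + γ)) * Real.exp (-(β + γ) * u))
      (P' := fun u => Real.exp (-(β + γ) * u)) ((Dc.exp le_rfl).const_mul _) (Dc.exp le_rfl) hd
    simp only [mul_zero, Real.exp_zero, mul_one, neg_neg] at h1
    rw [← h1]
    apply integral_congr_ae
    refine ae_of_all _ fun u => ?_
    simp only [eta]
    rw [← Real.exp_add]
    congr 1
    ring
  | succ m ih =>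
    have h1 := ih (fun i hi => hβ i (by omega)) (fun i hi => hγ i (by omega))
    have h2 := ibp0 (a := b + b) (by linarith) (gh_dc b hb m β γ hβb hγb)
      (gh'_dc b hb m β γ hβb hγb) (fun u => gh_hasDerivAt b m β γ u hβ hγ)
    rw [gg_zero b m β (fun i hi => hβ i (by omega)), zero_mul, neg_zero] at h2
    have i1 : IntegrableOn (fun u => eta b m β u * eta b m γ u) (Ioi 0) :=
      ((eta_dc b hb m β hβb).mul (eta_dc b hb m γ hγb)).integrable0 (by linarith)
    have i2 : IntegrableOn (fun u => (-(2 * (b + m + 1))) * gh' b m β γ u) (Ioi 0) :=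
      ((gh'_dc b hb m β γ hβb hγb).const_mul _).integrable0 (by linarith)
    have h3 : ∀ u, eta b (m + 1) β u * eta b (m + 1) γ u =
      eta b m β u * eta b m γ u + (-(2 * (b + m + 1))) * gh' b m β γ u :=
      fun u => eta_mul_succ b m β γ u hβ hγ
    simp only [h3]
    rw [integral_add i1 i2, integral_const_mul, h2, h1, mul_zero, add_zero]

/-- the integral of `g h` -/
lemma gh_integral (b : ℝ) (hb : 0 < b) (m : ℕ) (β γ : ℝ) (hβb : b ≤ β) (hγb : b ≤ γ)
    (hβ : ∀ i : ℕ, i < m + 1 → β ≠ b + i + 1) (hγ : ∀ i : ℕ, i < m + 1 → γ ≠ b + i + 1) :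
    2 * (b + m + 1) * ∫ u in Ioi (0 : ℝ), gg b m β u * gg b m γ u =
      (1 / (β + γ)) * (1 / (β + b + m + 1) + 1 / (γ + b + m + 1)) := by
  set c : ℝ := b + m + 1 with hc
  have hm : (0 : ℝ) ≤ m := Nat.cast_nonneg m
  have hcb : b ≤ c := by rw [hc]; linarith
  have h3 : c - β ≠ 0 := sub_ne_zero.mpr (Ne.symm (hβ m (by omega)))
  have h4 : c - γ ≠ 0 := sub_ne_zero.mpr (Ne.symm (hγ m (by omega)))
  have hβ' : ∀ i : ℕ, i < m → β ≠ b + i + 1 := fun i hi => hβ i (by omega)
  have hγ' : ∀ i : ℕ, i < m → γ ≠ b + i + 1 := fun i hi => hγ i (by omega)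
  have e : ∀ u, gg b m β u * gg b m γ u = ((c - β) * (c - γ))⁻¹ *
      ((eta b m β u * eta b m γ u - eta b m β u * eta b m c u) -
        (eta b m c u * eta b m γ u - eta b m c u * eta b m c u)) := by
    intro u
    unfold gg
    rw [← hc]
    field_simp
  have dmul : ∀ x y : ℝ, b ≤ x → b ≤ y → IntegrableOn (fun u => eta b m x u * eta b m y u)
      (Ioi 0) := fun x y hx hy =>
    ((eta_dc b hb m x hx).mul (eta_dc b hb m y hy)).integrable0 (by linarith)
  simp only [e]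
  have j1 : IntegrableOn (fun u => eta b m β u * eta b m γ u - eta b m β u * eta b m c u) (Ioi 0) :=
    (dmul β γ hβb hγb).sub (dmul β c hβb hcb)
  have j2 : IntegrableOn (fun u => eta b m c u * eta b m γ u - eta b m c u * eta b m c u) (Ioi 0) :=
    (dmul c γ hcb hγb).sub (dmul c c hcb hcb)
  rw [integral_const_mul, integral_sub j1 j2, integral_sub (dmul β γ hβb hγb) (dmul β c hβb hcb),
    integral_sub (dmul c γ hcb hγb) (dmul c c hcb hcb),
    eta_I0 b hb m β γ hβb hγb hβ' hγ', eta_I0 b hb m β c hβb hcb hβ' (c_ne b m),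
    eta_I0 b hb m c γ hcb hγb (c_ne b m) hγ', eta_I0 b hb m c c hcb hcb (c_ne b m) (c_ne b m)]
  have e1 : β + b + m + 1 = β + c := by rw [hc]; ring
  have e2 : γ + b + m + 1 = γ + c := by rw [hc]; ring
  rw [e1, e2]
  have n1 : β + γ ≠ 0 := by linarith
  have n2 : β + c ≠ 0 := by linarith
  have n3 : γ + c ≠ 0 := by linarith
  have n4 : c + γ ≠ 0 := by linarith
  have n5 : c + c ≠ 0 := by linarith
  have n6 : c ≠ 0 := by linarith
  field_simp
  ring

theorem eta_I1 (b : ℝ) (hb : 0 < b) (m : ℕ) (β γ : ℝ) (hβb : b ≤ β) (hγb : b ≤ γ)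
    (hβ : ∀ i : ℕ, i < m → β ≠ b + i + 1) (hγ : ∀ i : ℕ, i < m → γ ≠ b + i + 1) :
    ∫ u in Ioi (0 : ℝ), u * (eta b m β u * eta b m γ u) =
      1 / (β + γ) ^ 2 + (1 / (β + γ)) * ∑ i ∈ Finset.range m,
        (1 / (β + b + i + 1) + 1 / (γ + b + i + 1)) := by
  induction m with
  | zero =>
    have hd : ∀ u : ℝ, HasDerivAt (fun u : ℝ => -(1 / (β + γ)) * Real.exp (-(β + γ) * u))
        (Real.exp (-(β + γ) * u)) u := by
      intro u
      have h : HasDerivAt (fun u : ℝ => Real.exp (-(β + γ) * u))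
          (Real.exp (-(β + γ) * u) * (-(β + γ) * 1)) u :=
        ((hasDerivAt_id u).const_mul (-(β + γ))).exp
      refine (h.const_mul (-(1 / (β + γ)))).congr_deriv ?_
      have : β + γ ≠ 0 := by linarith
      field_simp
    have h1 := ibp1 (a := β + γ) (by linarith) (P := fun u => -(1 / (β + γ)) * Real.exp (-(β + γ) * u))
      (P' := fun u => Real.exp (-(β + γ) * u)) ((Dc.exp le_rfl).const_mul _) (Dc.exp le_rfl) hd
    have h0 := eta_I0 b hb 0 β γ hβb hγb hβ hγ
    have e : ∀ u, eta b 0 β u * eta b 0 γ u = Real.exp (-(β + γ) * u) := by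
      intro u
      simp only [eta]
      rw [← Real.exp_add]
      congr 1
      ring
    simp only [e] at h0 ⊢
    rw [h1, integral_const_mul, h0]
    simp only [Finset.range_zero, Finset.sum_empty, mul_zero, add_zero]
    have : β + γ ≠ 0 := by linarith
    field_simp
  | succ m ih =>
    have h1 := ih (fun i hi => hβ i (by omega)) (fun i hi => hγ i (by omega))
    have h2 := ibp1 (a := b + b) (by linarith) (gh_dc b hb m β γ hβb hγb)
      (gh'_dc b hb m β γ hβb hγb) (fun u => gh_hasDerivAt b m β γ u hβ hγ)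
    have i1 : IntegrableOn (fun u => u * (eta b m β u * eta b m γ u)) (Ioi 0) := by
      have h := ((eta_dc b hb m β hβb).mul (eta_dc b hb m γ hγb)).integrable (by linarith) 1
      simpa only [pow_one] using h
    have i2 : IntegrableOn (fun u => (-(2 * (b + m + 1))) * (u * gh' b m β γ u)) (Ioi 0) := by
      have h := ((gh'_dc b hb m β γ hβb hγb).integrable (by linarith) 1).const_mul
        (-(2 * (b + m + 1)))
      simp only [pow_one] at h
      exact h
    have h3 : ∀ u, u * (eta b (m + 1) β u * eta b (m + 1) γ u) =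
      u * (eta b m β u * eta b m γ u) + (-(2 * (b + m + 1))) * (u * gh' b m β γ u) := by
      intro u
      rw [eta_mul_succ b m β γ u hβ hγ]
      ring
    simp only [h3]
    rw [integral_add i1 i2, integral_const_mul, h2, h1, Finset.sum_range_succ]
    have h5 := gh_integral b hb m β γ hβb hγb hβ hγ
    have h6 : -(2 * (b + m + 1)) * -∫ u in Ioi (0 : ℝ), gg b m β u * gg b m γ u =
        2 * (b + m + 1) * ∫ u in Ioi (0 : ℝ), gg b m β u * gg b m γ u := by ring
    rw [h6, h5]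
    ring

end Pool.Agent.Helper23.BAM

namespace Pool.Agent.Helper68.BA

open MeasureTheory Set Filter Topology Complex

theorem eta_zero (b : ℝ) (m : ℕ) (β : ℝ) (hβ : ∀ i : ℕ, i < m → β ≠ b + i + 1) :
    eta b m β 0 = 1 :=
  Pool.Agent.Helper23.BAM.eta_zero b m β hβ

theorem eta_hasDerivAt (b : ℝ) (m : ℕ) (β u : ℝ) (hβ : ∀ i : ℕ, i < m → β ≠ b + i + 1) :
    HasDerivAt (eta b m β) (-β * eta b m β u - kk b m u) u :=
  Pool.Agent.Helper23.BAM.eta_hasDerivAt b m β u hβ

theorem kk_continuous (b : ℝ) (m : ℕ) : Continuous (kk b m) :=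
  Pool.Agent.Helper23.BAM.kk_continuous b m

theorem eta_continuous (b : ℝ) (m : ℕ) (β : ℝ) : Continuous (eta b m β) :=
  Pool.Agent.Helper23.BAM.eta_continuous b m β

theorem eta_decay (b : ℝ) (hb : 0 < b) (m : ℕ) (β : ℝ) (hβb : b ≤ β) :
    ∃ C : ℝ, ∀ u : ℝ, 0 ≤ u → |eta b m β u| ≤ C * Real.exp (-b * u) :=
  Pool.Agent.Helper23.BAM.eta_decay b hb m β hβb

theorem kk_decay (b : ℝ) (hb : 0 < b) (m : ℕ) :
    ∃ C : ℝ, ∀ u : ℝ, 0 ≤ u → |kk b m u| ≤ C * Real.exp (-b * u) :=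
  Pool.Agent.Helper23.BAM.kk_decay b hb m

theorem eta_I0 (b : ℝ) (hb : 0 < b) (m : ℕ) (β γ : ℝ) (hβb : b ≤ β) (hγb : b ≤ γ)
    (hβ : ∀ i : ℕ, i < m → β ≠ b + i + 1) (hγ : ∀ i : ℕ, i < m → γ ≠ b + i + 1) :
    ∫ u in Ioi (0 : ℝ), eta b m β u * eta b m γ u = 1 / (β + γ) :=
  Pool.Agent.Helper23.BAM.eta_I0 b hb m β γ hβb hγb hβ hγ

theorem eta_I1 (b : ℝ) (hb : 0 < b) (m : ℕ) (β γ : ℝ) (hβb : b ≤ β) (hγb : b ≤ γ)
    (hβ : ∀ i : ℕ, i < m → β ≠ b + i + 1) (hγ : ∀ i : ℕ, i < m → γ ≠ b + i + 1) :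
    ∫ u in Ioi (0 : ℝ), u * (eta b m β u * eta b m γ u) =
      1 / (β + γ) ^ 2 + (1 / (β + γ)) * ∑ i ∈ Finset.range m,
        (1 / (β + b + i + 1) + 1 / (γ + b + i + 1)) :=
  Pool.Agent.Helper23.BAM.eta_I1 b hb m β γ hβb hγb hβ hγ

end Pool.Agent.Helper68.BA
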