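import Pool.Agent.Helper23.BAM.E1

/-!
MP_3dd6d4_an, MODES, module E2: second moments of `eta` and `kk`.
-/

set_option autoImplicit false

noncomputable section

namespace Pool.Agent.Helper23.BAM

open MeasureTheory Set Filter Topology
open Pool.Agent.Helper68.BA

lemma b_ne (b : ℝ) (m : ℕ) : ∀ i : ℕ, i < m → b ≠ b + i + 1 := by
  intro i _ h
  have hi : (0 : ℝ) ≤ i := Nat.cast_nonneg i
  linarith

/-- the increment of the second moment, in terms of `∫ u g²` -/
lemma gg_sq_integral (b : ℝ) (hb : 0 < b) (m : ℕ) :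
    ((b + m + 1) - b) ^ 2 * ∫ u in Ioi (0 : ℝ), u * (gg b m b u * gg b m b u) =
      (∫ u in Ioi (0 : ℝ), u * (eta b m b u * eta b m b u)) -
        2 * (∫ u in Ioi (0 : ℝ), u * (eta b m b u * eta b m (b + m + 1) u)) +
        ∫ u in Ioi (0 : ℝ), u * (eta b m (b + m + 1) u * eta b m (b + m + 1) u) := by
  set c : ℝ := b + m + 1 with hc
  have hm : (0 : ℝ) ≤ m := Nat.cast_nonneg m
  have hcb : b ≤ c := by rw [hc]; linarith
  have h3 : c - b ≠ 0 := by
    have : 0 < c - b := by rw [hc]; linarith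
    exact this.ne'
  have dmul : ∀ x y : ℝ, b ≤ x → b ≤ y → IntegrableOn (fun u => u * (eta b m x u * eta b m y u))
      (Ioi 0) := by
    intro x y hx hy
    have h := ((eta_dc b hb m x hx).mul (eta_dc b hb m y hy)).integrable (by linarith) 1
    simp only [pow_one] at h
    exact h
  have e : ∀ u, u * (gg b m b u * gg b m b u) = ((c - b) ^ 2)⁻¹ *
      ((u * (eta b m b u * eta b m b u) - 2 * (u * (eta b m b u * eta b m c u))) +
        u * (eta b m c u * eta b m c u)) := by
    intro u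
    unfold gg
    rw [← hc]
    field_simp
    ring
  simp only [e]
  have j0 : IntegrableOn (fun u => 2 * (u * (eta b m b u * eta b m c u))) (Ioi 0) :=
    (dmul b c le_rfl hcb).const_mul 2
  have j1 : IntegrableOn (fun u => u * (eta b m b u * eta b m b u) -
      2 * (u * (eta b m b u * eta b m c u))) (Ioi 0) := (dmul b b le_rfl le_rfl).sub j0
  rw [integral_const_mul, integral_add j1 (dmul c c hcb hcb), integral_sub
    (dmul b b le_rfl le_rfl) j0, integral_const_mul]
  field_simp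

lemma alg_var (b c S U G : ℝ) (hb : 0 < b) (hc : b < c)
    (hg : (c - b) ^ 2 * G = (1 / (b + b) ^ 2 + (1 / (b + b)) * (2 * S)) -
      2 * (1 / (b + c) ^ 2 + (1 / (b + c)) * (S + (S - (c - b) * U))) +
      (1 / (c + c) ^ 2 + (1 / (c + c)) * (2 * (S - (c - b) * U)))) :
    4 * c * G = 2 * b * ((1 / (b + b) ^ 2 + (1 / (b + b)) * (2 * (S + 1 / (b + c)))) ^ 2 -
      (1 / (b + b) ^ 2 + (1 / (b + b)) * (2 * S)) ^ 2) + 1 / (b * c * (b + c)) +
      4 * (U / (b + c)) := by
  have h1 : c - b ≠ 0 := by linarith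
  have h2 : b + c ≠ 0 := by linarith
  have h3 : b ≠ 0 := by linarith
  have h4 : c ≠ 0 := by linarith
  have h5 : b + b ≠ 0 := by linarith
  have h6 : c + c ≠ 0 := by linarith
  have hG : G = ((1 / (b + b) ^ 2 + (1 / (b + b)) * (2 * S)) -
      2 * (1 / (b + c) ^ 2 + (1 / (b + c)) * (S + (S - (c - b) * U))) +
      (1 / (c + c) ^ 2 + (1 / (c + c)) * (2 * (S - (c - b) * U)))) / (c - b) ^ 2 := by
    rw [← hg]; field_simp
  rw [hG]
  field_simp
  ring

/-- the second moment of `eta b m b` -/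
lemma eta_M2 (b : ℝ) (hb : 0 < b) (m : ℕ) :
    (∫ u in Ioi (0 : ℝ), u ^ 2 * (eta b m b u * eta b m b u)) -
        2 * b * (∫ u in Ioi (0 : ℝ), u * (eta b m b u * eta b m b u)) ^ 2 =
      1 / (8 * b ^ 3) + (1 / b) * ∑ i ∈ Finset.range m, 1 / ((b + i + 1) * (2 * b + i + 1)) +
        4 * ∑ j ∈ Finset.range m, ∑ i ∈ Finset.range j,
          1 / ((2 * b + i + 1) * (2 * b + j + 1) * (2 * b + i + j + 2)) := by
  induction m with
  | zero =>
    have hd : ∀ u : ℝ, HasDerivAt (fun u : ℝ => -(1 / (b + b)) * Real.exp (-(b + b) * u))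
        (Real.exp (-(b + b) * u)) u := by
      intro u
      have h : HasDerivAt (fun u : ℝ => Real.exp (-(b + b) * u))
          (Real.exp (-(b + b) * u) * (-(b + b) * 1)) u :=
        ((hasDerivAt_id u).const_mul (-(b + b))).exp
      refine (h.const_mul (-(1 / (b + b)))).congr_deriv ?_
      have : b + b ≠ 0 := by linarith
      field_simp
    have h1 := ibp2 (a := b + b) (by linarith) (P := fun u => -(1 / (b + b)) * Real.exp (-(b + b) * u))
      (P' := fun u => Real.exp (-(b + b) * u)) ((Dc.exp le_rfl).const_mul _) (Dc.exp le_rfl) hd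
    have h2 := eta_I1 b hb 0 b b le_rfl le_rfl (b_ne b 0) (b_ne b 0)
    have e : ∀ u, eta b 0 b u * eta b 0 b u = Real.exp (-(b + b) * u) := by
      intro u
      simp only [eta]
      rw [← Real.exp_add]
      congr 1
      ring
    simp only [e] at h2 ⊢
    have e2 : ∀ u : ℝ, u * (-(1 / (b + b)) * Real.exp (-(b + b) * u)) =
        -(1 / (b + b)) * (u * Real.exp (-(b + b) * u)) := by
      intro u; ring
    simp only [e2] at h1
    rw [h1, integral_const_mul, h2]
    simp only [Finset.range_zero, Finset.sum_empty, mul_zero, add_zero]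
    field_simp
    ring
  | succ m ih =>
    set c : ℝ := b + m + 1 with hc
    have hm : (0 : ℝ) ≤ m := Nat.cast_nonneg m
    have hcb : b ≤ c := by rw [hc]; linarith
    have hcb' : b < c := by rw [hc]; linarith
    have hbm : ∀ i : ℕ, i < m + 1 → b ≠ b + i + 1 := b_ne b (m + 1)
    -- first moments
    have m1 := eta_I1 b hb m b b le_rfl le_rfl (b_ne b m) (b_ne b m)
    have m1' := eta_I1 b hb (m + 1) b b le_rfl le_rfl (b_ne b (m + 1)) (b_ne b (m + 1))
    rw [Finset.sum_range_succ] at m1'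
    have mc := eta_I1 b hb m b c le_rfl hcb (b_ne b m) (c_ne b m)
    have mcc := eta_I1 b hb m c c hcb hcb (c_ne b m) (c_ne b m)
    -- second moment
    have h2 := ibp2 (a := b + b) (by linarith) (gh_dc b hb m b b le_rfl le_rfl)
      (gh'_dc b hb m b b le_rfl le_rfl) (fun u => gh_hasDerivAt b m b b u hbm hbm)
    have i1 : IntegrableOn (fun u => u ^ 2 * (eta b m b u * eta b m b u)) (Ioi 0) :=
      ((eta_dc b hb m b le_rfl).mul (eta_dc b hb m b le_rfl)).integrable (by linarith) 2
    have i2 : IntegrableOn (fun u => (-(2 * (b + m + 1))) * (u ^ 2 * gh' b m b b u)) (Ioi 0) :=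
      ((gh'_dc b hb m b b le_rfl le_rfl).integrable (by linarith) 2).const_mul
        (-(2 * (b + m + 1)))
    have h3 : ∀ u, u ^ 2 * (eta b (m + 1) b u * eta b (m + 1) b u) =
      u ^ 2 * (eta b m b u * eta b m b u) + (-(2 * (b + m + 1))) * (u ^ 2 * gh' b m b b u) := by
      intro u
      rw [eta_mul_succ b m b b u hbm hbm]
      ring
    have hM2 : (∫ u in Ioi (0 : ℝ), u ^ 2 * (eta b (m + 1) b u * eta b (m + 1) b u)) =
        (∫ u in Ioi (0 : ℝ), u ^ 2 * (eta b m b u * eta b m b u)) +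
          4 * c * ∫ u in Ioi (0 : ℝ), u * (gg b m b u * gg b m b u) := by
      simp only [h3]
      rw [integral_add i1 i2, integral_const_mul, h2, hc]
      ring
    have hg := gg_sq_integral b hb m
    rw [← hc] at hg
    rw [mc, mcc, m1] at hg
    rw [m1] at ih
    rw [hM2, m1']
    rw [Finset.sum_range_succ, Finset.sum_range_succ]
    -- abbreviations
    set S : ℝ := ∑ i ∈ Finset.range m, 1 / (b + b + i + 1) with hS
    set U : ℝ := ∑ i ∈ Finset.range m, 1 / ((b + b + i + 1) * (c + b + i + 1)) with hU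
    have s1 : ∑ i ∈ Finset.range m, (1 / (b + b + i + 1) + 1 / (b + b + i + 1)) = 2 * S := by
      rw [Finset.sum_add_distrib, ← hS]; ring
    have sT : ∑ i ∈ Finset.range m, 1 / (c + b + i + 1) = S - (c - b) * U := by
      rw [hS, hU, Finset.mul_sum, ← Finset.sum_sub_distrib]
      apply Finset.sum_congr rfl
      intro i _
      have hi : (0 : ℝ) ≤ i := Nat.cast_nonneg i
      have n1 : b + b + i + 1 ≠ 0 := by linarith
      have n2 : c + b + i + 1 ≠ 0 := by linarith
      field_simp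
      ring
    have s2 : ∑ i ∈ Finset.range m, (1 / (b + b + i + 1) + 1 / (c + b + i + 1)) =
        S + (S - (c - b) * U) := by
      rw [Finset.sum_add_distrib, ← hS, sT]
    have s3 : ∑ i ∈ Finset.range m, (1 / (c + b + i + 1) + 1 / (c + b + i + 1)) =
        2 * (S - (c - b) * U) := by
      rw [Finset.sum_add_distrib, sT]; ring
    have s4 : ∑ i ∈ Finset.range m, 1 / ((2 * b + i + 1) * (2 * b + m + 1) * (2 * b + i + m + 2)) =
        U / (b + c) := by
      rw [hU, Finset.sum_div]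
      apply Finset.sum_congr rfl
      intro i _
      have e1 : 2 * b + i + 1 = b + b + i + 1 := by ring
      have e2 : 2 * b + m + 1 = b + c := by rw [hc]; ring
      have e3 : 2 * b + i + m + 2 = c + b + i + 1 := by rw [hc]; ring
      rw [e1, e2, e3, div_div]
      congr 1
      ring
    have e4 : b + b + m + 1 = b + c := by rw [hc]; ring
    have e5 : 2 * b + m + 1 = b + c := by rw [hc]; ring
    rw [s1, s2, s3] at hg
    rw [s1] at ih
    rw [s1, s4, e4, e5, ← hc]
    have hk := alg_var b c S U _ hb hcb' hg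
    have e6 : 2 * S + (1 / (b + c) + 1 / (b + c)) = 2 * (S + 1 / (b + c)) := by ring
    rw [e6]
    have e7 : 1 / b * (∑ i ∈ Finset.range m, 1 / ((b + i + 1) * (2 * b + i + 1)) +
        1 / (c * (b + c))) = 1 / b * (∑ i ∈ Finset.range m, 1 / ((b + i + 1) * (2 * b + i + 1))) +
          1 / (b * c * (b + c)) := by
      rw [mul_add]
      congr 1
      rw [div_mul_div_comm, one_mul, mul_assoc]
    rw [e7]
    linarith

theorem eta_var (b : ℝ) (hb : 0 < b) (m : ℕ) : ∃ y0 : ℝ,
    ∫ u in Ioi (0 : ℝ), (u - y0) ^ 2 * eta b m b u ^ 2 =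
      1 / (8 * b ^ 3) + (1 / b) * ∑ i ∈ Finset.range m, 1 / ((b + i + 1) * (2 * b + i + 1)) +
        4 * ∑ j ∈ Finset.range m, ∑ i ∈ Finset.range j,
          1 / ((2 * b + i + 1) * (2 * b + j + 1) * (2 * b + i + j + 2)) := by
  set M1 : ℝ := ∫ u in Ioi (0 : ℝ), u * (eta b m b u * eta b m b u) with hM1
  refine ⟨2 * b * M1, ?_⟩
  have h0 := eta_I0 b hb m b b le_rfl le_rfl (b_ne b m) (b_ne b m)
  rw [← eta_M2 b hb m, ← hM1]
  have hd := (eta_dc b hb m b le_rfl).mul (eta_dc b hb m b le_rfl)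
  have i2 : IntegrableOn (fun u => u ^ 2 * (eta b m b u * eta b m b u)) (Ioi 0) :=
    hd.integrable (by linarith) 2
  have i1 : IntegrableOn (fun u => 2 * (2 * b * M1) * (u * (eta b m b u * eta b m b u))) (Ioi 0) := by
    have h := (hd.integrable (by linarith) 1).const_mul (2 * (2 * b * M1))
    simp only [pow_one] at h
    exact h
  have i0 : IntegrableOn (fun u => (2 * b * M1) ^ 2 * (eta b m b u * eta b m b u)) (Ioi 0) :=
    (hd.integrable0 (by linarith)).const_mul _
  have e : ∀ u, (u - 2 * b * M1) ^ 2 * eta b m b u ^ 2 =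
      (u ^ 2 * (eta b m b u * eta b m b u) - 2 * (2 * b * M1) * (u * (eta b m b u * eta b m b u))) +
        (2 * b * M1) ^ 2 * (eta b m b u * eta b m b u) := by
    intro u; ring
  simp only [e]
  have i21 : IntegrableOn (fun u => u ^ 2 * (eta b m b u * eta b m b u) -
      2 * (2 * b * M1) * (u * (eta b m b u * eta b m b u))) (Ioi 0) := i2.sub i1
  rw [integral_add i21 i0, integral_sub i2 i1, integral_const_mul, integral_const_mul, h0, ← hM1]
  have : b + b ≠ 0 := by linarith
  field_simp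
  ring

/-- `kk_{m+1}^2 = kk_m^2 - 2c (g^2)'`, `g = eta_m^c` -/
lemma kk_sq_succ (b : ℝ) (m : ℕ) (u : ℝ) :
    kk b (m + 1) u ^ 2 = kk b m u ^ 2 + (-(2 * (b + m + 1))) *
      ((-(b + m + 1) * eta b m (b + m + 1) u - kk b m u) * eta b m (b + m + 1) u +
        eta b m (b + m + 1) u * (-(b + m + 1) * eta b m (b + m + 1) u - kk b m u)) := by
  simp only [kk]
  ring

lemma sq_hasDerivAt (b : ℝ) (m : ℕ) (u : ℝ) :
    HasDerivAt (fun u => eta b m (b + m + 1) u * eta b m (b + m + 1) u)
      ((-(b + m + 1) * eta b m (b + m + 1) u - kk b m u) * eta b m (b + m + 1) u +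
        eta b m (b + m + 1) u * (-(b + m + 1) * eta b m (b + m + 1) u - kk b m u)) u :=
  (eta_hasDerivAt b m (b + m + 1) u (c_ne b m)).mul (eta_hasDerivAt b m (b + m + 1) u (c_ne b m))

lemma sq_dc (b : ℝ) (hb : 0 < b) (m : ℕ) :
    Dc (b + b) (fun u => eta b m (b + m + 1) u * eta b m (b + m + 1) u) := by
  have hc : b ≤ b + m + 1 := by
    have : (0 : ℝ) ≤ m := Nat.cast_nonneg m
    linarith
  exact (eta_dc b hb m _ hc).mul (eta_dc b hb m _ hc)

lemma sq_dc' (b : ℝ) (hb : 0 < b) (m : ℕ) :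
    Dc (b + b) (fun u => (-(b + m + 1) * eta b m (b + m + 1) u - kk b m u) *
        eta b m (b + m + 1) u +
        eta b m (b + m + 1) u * (-(b + m + 1) * eta b m (b + m + 1) u - kk b m u)) := by
  have hc : b ≤ b + m + 1 := by
    have : (0 : ℝ) ≤ m := Nat.cast_nonneg m
    linarith
  have h1 := ((eta_dc b hb m _ hc).const_mul (-(b + m + 1))).sub (kk_dc b hb m)
  exact (h1.mul (eta_dc b hb m _ hc)).add ((eta_dc b hb m _ hc).mul h1)

lemma kk2_dc (b : ℝ) (hb : 0 < b) (m : ℕ) : Dc (b + b) (fun u => kk b m u ^ 2) := by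
  have h := (kk_dc b hb m).mul (kk_dc b hb m)
  simp only [← pow_two] at h
  exact h

theorem kk_sq (b : ℝ) (hb : 0 < b) (m : ℕ) :
    ∫ u in Ioi (0 : ℝ), kk b m u ^ 2 = ∑ i ∈ Finset.range m, 2 * (b + i + 1) := by
  induction m with
  | zero => simp [kk]
  | succ m ih =>
    simp only [kk_sq_succ]
    rw [integral_add ((kk2_dc b hb m).integrable0 (by linarith))
      (((sq_dc' b hb m).const_mul _).integrable0 (by linarith)), integral_const_mul,
      ibp0 (a := b + b) (by linarith) (sq_dc b hb m) (sq_dc' b hb m)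
        (fun u => sq_hasDerivAt b m u), ih, eta_zero b m _ (c_ne b m), Finset.sum_range_succ]
    ring

theorem kk_sq2 (b : ℝ) (hb : 0 < b) (m : ℕ) :
    ∫ u in Ioi (0 : ℝ), u ^ 2 * kk b m u ^ 2 =
      ∑ i ∈ Finset.range m, ∑ j ∈ Finset.range m, 2 / (2 * b + i + j + 2) := by
  induction m with
  | zero => simp [kk]
  | succ m ih =>
    have hm : (0 : ℝ) ≤ m := Nat.cast_nonneg m
    have hc : b ≤ b + m + 1 := by linarith
    simp only [kk_sq_succ]
    have e : ∀ u : ℝ, u ^ 2 * (kk b m u ^ 2 + (-(2 * (b + m + 1))) *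
      ((-(b + m + 1) * eta b m (b + m + 1) u - kk b m u) * eta b m (b + m + 1) u +
        eta b m (b + m + 1) u * (-(b + m + 1) * eta b m (b + m + 1) u - kk b m u))) =
        u ^ 2 * kk b m u ^ 2 + (-(2 * (b + m + 1))) * (u ^ 2 *
      ((-(b + m + 1) * eta b m (b + m + 1) u - kk b m u) * eta b m (b + m + 1) u +
        eta b m (b + m + 1) u * (-(b + m + 1) * eta b m (b + m + 1) u - kk b m u))) := by
      intro u; ring
    simp only [e]
    rw [integral_add ((kk2_dc b hb m).integrable (by linarith) 2)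
      (((sq_dc' b hb m).integrable (by linarith) 2).const_mul _), integral_const_mul,
      ibp2 (a := b + b) (by linarith) (sq_dc b hb m) (sq_dc' b hb m)
        (fun u => sq_hasDerivAt b m u), ih, eta_I1 b hb m _ _ hc hc (c_ne b m) (c_ne b m)]
    have s1 : ∑ i ∈ Finset.range (m + 1), ∑ j ∈ Finset.range (m + 1), 2 / (2 * b + i + j + 2) =
        (∑ i ∈ Finset.range m, ∑ j ∈ Finset.range m, 2 / (2 * b + i + j + 2)) +
          2 * (∑ i ∈ Finset.range m, 2 / (2 * b + i + m + 2)) + 2 / (2 * b + m + m + 2) := by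
      rw [Finset.sum_range_succ, Finset.sum_range_succ]
      simp only [Finset.sum_range_succ _ m]
      rw [Finset.sum_add_distrib]
      have s2 : ∑ x ∈ Finset.range m, 2 / (2 * b + (m : ℝ) + x + 2) =
          ∑ i ∈ Finset.range m, 2 / (2 * b + i + m + 2) := by
        apply Finset.sum_congr rfl
        intro i _
        congr 1
        ring
      rw [s2]
      ring
    rw [s1]
    have s3 : ∑ i ∈ Finset.range m, (1 / (b + m + 1 + b + i + 1) + 1 / (b + m + 1 + b + i + 1)) =
        ∑ i ∈ Finset.range m, 2 / (2 * b + i + m + 2) := by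
      apply Finset.sum_congr rfl
      intro i _
      rw [← add_div]
      congr 1
      · norm_num
      · ring
    rw [s3]
    have n1 : b + m + 1 + (b + m + 1) ≠ 0 := by linarith
    have n2 : 2 * b + m + m + 2 ≠ 0 := by linarith
    have n3 : b + m + 1 ≠ 0 := by linarith
    have e3 : 2 * b + m + m + 2 = 2 * (b + m + 1) := by ring
    have e4 : b + m + 1 + (b + m + 1) = 2 * (b + m + 1) := by ring
    rw [e3, e4]
    field_simp
    ring

end Pool.Agent.Helper23.BAM

namespace Pool.Agent.Helper68.BA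

open MeasureTheory Set Filter Topology Complex

theorem eta_var (b : ℝ) (hb : 0 < b) (m : ℕ) : ∃ y0 : ℝ,
    ∫ u in Ioi (0 : ℝ), (u - y0) ^ 2 * eta b m b u ^ 2 =
      1 / (8 * b ^ 3) + (1 / b) * ∑ i ∈ Finset.range m, 1 / ((b + i + 1) * (2 * b + i + 1)) +
        4 * ∑ j ∈ Finset.range m, ∑ i ∈ Finset.range j,
          1 / ((2 * b + i + 1) * (2 * b + j + 1) * (2 * b + i + j + 2)) :=
  Pool.Agent.Helper23.BAM.eta_var b hb m

theorem kk_sq (b : ℝ) (hb : 0 < b) (m : ℕ) :
    ∫ u in Ioi (0 : ℝ), kk b m u ^ 2 = ∑ i ∈ Finset.range m, 2 * (b + i + 1) :=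
  Pool.Agent.Helper23.BAM.kk_sq b hb m

theorem kk_sq2 (b : ℝ) (hb : 0 < b) (m : ℕ) :
    ∫ u in Ioi (0 : ℝ), u ^ 2 * kk b m u ^ 2 =
      ∑ i ∈ Finset.range m, ∑ j ∈ Finset.range m, 2 / (2 * b + i + j + 2) :=
  Pool.Agent.Helper23.BAM.kk_sq2 b hb m

end Pool.Agent.Helper68.BA
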